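import Pool.Agent.Zk73.OM.Main

/-!
# Multiplication in `C(X)` is uniformly open for one-dimensional compact `X`

For every compact Hausdorff space `X` of covering dimension at most one, all `a, b` in the complex
algebra `C(X)` and every `ε > 0`,
`B(ab, ε² / 32768) ⊆ B(a, ε) · B(b, ε)`.
The radius on the left does not depend on `a`, `b` or `X`. In particular multiplication in `C(X)` is
uniformly open (Q2), hence open (Q1).

Idea of the proof. By dimension at most one, the nowhere vanishing functions are dense in `C(X)` and
circle valued functions on closed sets extend. If `a`, `b`, `h` vanish nowhere and `h` is close to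
`ab`, take for the moduli of the factors of `h` the positive numbers `F`, `G` with `F G = |h|` and
`F - G = |a| - |b|`; for the phases take those of `a` where `|a|` is not small and (almost the
same) those which `b` forces where `|b|` is not small, and extend to `X`. General `h` is treated by
approximation and iteration.
-/

set_option autoImplicit false

open Pool.Agent.Zk73.OM

namespace Pool.Agent.Results.MP_64150f_an.UniformlyOpen

universe u

/-- If `X` is a compact Hausdorff space with Lebesgue covering dimension at most one, then
`B(ab, ε² / 32768) ⊆ B(a, ε) · B(b, ε)` for all `a, b ∈ C(X, ℂ)` and all `ε > 0`. -/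
theorem result (X : Type u) [TopologicalSpace X] [CompactSpace X] [T2Space X]
    (hX : CovDimLE X 1) (a b : C(X, ℂ)) (ε : ℝ) (hε : 0 < ε) :
    Metric.ball (a * b) (ε ^ 2 / 32768) ⊆
      {h : C(X, ℂ) | ∃ f ∈ Metric.ball a ε, ∃ g ∈ Metric.ball b ε, f * g = h} := by
  intro h hh
  rw [Metric.mem_ball, dist_eq_norm] at hh
  obtain ⟨f, g, hf, hg, hfg⟩ := exact_factor hX hε a b h hh.le
  exact ⟨f, by rwa [Metric.mem_ball, dist_eq_norm], g, by rwa [Metric.mem_ball, dist_eq_norm], hfg⟩

end Pool.Agent.Results.MP_64150f_an.UniformlyOpen
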